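import Pool.Agent.Lib.FPK.Kak

/-!
# The principle (FP): equilibria of laws which avoid open conditions
-/

set_option autoImplicit false

open Metric Topology Set Filter

namespace Pool.Agent.Lib.FPK

/-- The graph of the best reply is closed. -/
theorem isClosed_argmax {P Z : Type*} [TopologicalSpace P] [TopologicalSpace Z] (A : Set P)
    (hA : IsClosed A) (K : Set Z) (hK : IsClosed K) (f : P → Z → ℝ)
    (hf : ContinuousOn (fun p : P × Z => f p.1 p.2) (A ×ˢ K)) :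
    IsClosed {p : P × Z | p.1 ∈ A ∧ p.2 ∈ K ∧ ∀ y ∈ K, f p.1 y ≤ f p.1 p.2} := by
  have hAK : IsClosed (A ×ˢ K) := hA.prod hK
  have h1 : {p : P × Z | p.1 ∈ A ∧ p.2 ∈ K ∧ ∀ y ∈ K, f p.1 y ≤ f p.1 p.2} =
      (A ×ˢ K) ∩ ⋂ y ∈ K, {p ∈ A ×ˢ K | f p.1 y ≤ f p.1 p.2} := by
    ext p
    simp only [mem_ofPred_eq, mem_inter_iff, mem_iInter, Set.mem_prod]
    constructor
    · rintro ⟨h2, h3, h4⟩
      exact ⟨⟨h2, h3⟩, fun y hy => ⟨⟨h2, h3⟩, h4 y hy⟩⟩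
    · rintro ⟨⟨h2, h3⟩, h4⟩
      exact ⟨h2, h3, fun y hy => (h4 y hy).2⟩
  rw [h1]
  refine hAK.inter (isClosed_biInter fun y hy => ?_)
  refine hAK.isClosed_le ?_ hf
  have h2 : ContinuousOn (fun p : P × Z => (p.1, y)) (A ×ˢ K) := by fun_prop
  exact hf.comp h2 fun p hp => ⟨hp.1, hy⟩

/-- Best replies exist. -/
theorem exists_argmax {P Z : Type*} [TopologicalSpace P] [TopologicalSpace Z] (A : Set P)
    (K : Set Z) (hK : IsCompact K) (hne : K.Nonempty) (f : P → Z → ℝ)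
    (hf : ContinuousOn (fun p : P × Z => f p.1 p.2) (A ×ˢ K)) {p : P} (hp : p ∈ A) :
    {z | z ∈ K ∧ ∀ y ∈ K, f p y ≤ f p z}.Nonempty := by
  have h1 : ContinuousOn (f p) K := by
    have h2 : ContinuousOn (fun z : Z => (p, z)) K := by fun_prop
    exact hf.comp h2 fun z hz => ⟨hp, hz⟩
  obtain ⟨z, hz, hz2⟩ := hK.exists_isMaxOn hne h1
  exact ⟨z, hz, fun y hy => hz2 hy⟩

/-- The best replies form a convex set. -/
theorem convex_argmax {Z : Type*} [AddCommGroup Z] [Module ℝ Z] {K : Set Z} {f : Z → ℝ}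
    (hcc : ConcaveOn ℝ K f) : Convex ℝ {z | z ∈ K ∧ ∀ y ∈ K, f y ≤ f z} := by
  rintro z ⟨hz, hz2⟩ z' ⟨hz', hz2'⟩ s t hs ht hst
  refine ⟨hcc.1 hz hz' hs ht hst, fun y hy => ?_⟩
  have h1 := hcc.2 hz hz' hs ht hst
  refine le_trans ?_ h1
  have h2 := mul_le_mul_of_nonneg_left (hz2 y hy) hs
  have h3 := mul_le_mul_of_nonneg_left (hz2' y hy) ht
  have h4 : f y = s * f y + t * f y := by
    rw [← add_mul, hst, one_mul]
  rw [h4, smul_eq_mul, smul_eq_mul]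
  exact add_le_add h2 h3

/-- Equilibria, with one distinguished coordinate. -/
theorem exists_equilibrium_prod {F : Type*} [NormedAddCommGroup F] [NormedSpace ℝ F]
    [FiniteDimensional ℝ F] (K0 : Set F) (hK0 : IsCompact K0) (hc0 : Convex ℝ K0)
    (hne0 : K0.Nonempty) {ι : Type*} [Fintype ι] (E : ι → Type*)
    [∀ i, NormedAddCommGroup (E i)] [∀ i, NormedSpace ℝ (E i)] [∀ i, FiniteDimensional ℝ (E i)]
    (K : ∀ i, Set (E i)) (hK : ∀ i, IsCompact (K i)) (hc : ∀ i, Convex ℝ (K i))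
    (hne : ∀ i, (K i).Nonempty) (f0 : F × (∀ j, E j) → F → ℝ)
    (hf0 : ContinuousOn (fun p : (F × (∀ j, E j)) × F => f0 p.1 p.2)
      ((K0 ×ˢ Set.pi univ K) ×ˢ K0))
    (hcc0 : ∀ p ∈ K0 ×ˢ Set.pi univ K, ConcaveOn ℝ K0 (f0 p))
    (f : ∀ i, F × (∀ j, E j) → E i → ℝ)
    (hf : ∀ i, ContinuousOn (fun p : (F × (∀ j, E j)) × E i => f i p.1 p.2)
      ((K0 ×ˢ Set.pi univ K) ×ˢ K i))
    (hcc : ∀ i, ∀ p ∈ K0 ×ˢ Set.pi univ K, ConcaveOn ℝ (K i) (f i p)) :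
    ∃ p ∈ K0 ×ˢ Set.pi univ K, (∀ y ∈ K0, f0 p y ≤ f0 p p.1) ∧
      ∀ i, ∀ y ∈ K i, f i p y ≤ f i p (p.2 i) := by
  have hKp : IsCompact (Set.pi univ K) := isCompact_univ_pi hK
  obtain ⟨p, hp, hpB⟩ := kakutani (K0 ×ˢ Set.pi univ K) (hK0.prod hKp)
    (hc0.prod (convex_pi fun i _ => hc i)) (hne0.prod (univ_pi_nonempty_iff.2 hne))
    (fun p => {z | z ∈ K0 ∧ ∀ y ∈ K0, f0 p y ≤ f0 p z} ×ˢ
      Set.pi univ fun i => {z | z ∈ K i ∧ ∀ y ∈ K i, f i p y ≤ f i p z})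
    (fun p hp => (exists_argmax _ K0 hK0 hne0 f0 hf0 hp).prod
      (univ_pi_nonempty_iff.2 fun i => exists_argmax _ (K i) (hK i) (hne i) (f i) (hf i) hp))
    (fun p hp => (convex_argmax (hcc0 p hp)).prod
      (convex_pi fun i _ => convex_argmax (hcc i p hp)))
    (fun p hp => Set.prod_mono (fun z hz => hz.1) (Set.pi_mono fun i _ z hz => hz.1))
    (by
      have hKK : IsClosed (K0 ×ˢ Set.pi univ K) := (hK0.prod hKp).isClosed
      have h1 : {q : (F × (∀ j, E j)) × (F × (∀ j, E j)) | q.1 ∈ K0 ×ˢ Set.pi univ K ∧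
          q.2 ∈ {z | z ∈ K0 ∧ ∀ y ∈ K0, f0 q.1 y ≤ f0 q.1 z} ×ˢ
            Set.pi univ fun i => {z | z ∈ K i ∧ ∀ y ∈ K i, f i q.1 y ≤ f i q.1 z}} =
          ((fun q : (F × (∀ j, E j)) × (F × (∀ j, E j)) => (q.1, q.2.1)) ⁻¹'
            {p | p.1 ∈ K0 ×ˢ Set.pi univ K ∧ p.2 ∈ K0 ∧ ∀ y ∈ K0, f0 p.1 y ≤ f0 p.1 p.2}) ∩
          ⋂ i, (fun q : (F × (∀ j, E j)) × (F × (∀ j, E j)) => (q.1, q.2.2 i)) ⁻¹'
            {p | p.1 ∈ K0 ×ˢ Set.pi univ K ∧ p.2 ∈ K i ∧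
              ∀ y ∈ K i, f i p.1 y ≤ f i p.1 p.2} := by
        ext q
        simp only [mem_ofPred_eq, mem_inter_iff, mem_iInter, mem_preimage, Set.mem_prod,
          Set.mem_univ_pi]
        constructor
        · rintro ⟨h2, h3, h4⟩
          exact ⟨⟨h2, h3⟩, fun i => ⟨h2, h4 i⟩⟩
        · rintro ⟨⟨h2, h3⟩, h4⟩
          exact ⟨h2, h3, fun i => (h4 i).2⟩
      rw [h1]
      refine IsClosed.inter ?_ (isClosed_iInter fun i => ?_)
      · exact (isClosed_argmax _ hKK K0 hK0.isClosed f0 hf0).preimage (by fun_prop)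
      · exact (isClosed_argmax _ hKK (K i) (hK i).isClosed (f i) (hf i)).preimage (by fun_prop))
  exact ⟨p, hp, hpB.1.2, fun i => (hpB.2 i (mem_univ i)).2⟩

/-- A maximiser of a linear functional over the laws is concentrated on its largest values. -/
theorem le_of_linear_max {S : Type*} [Fintype S] {g x : S → ℝ}
    (hmax : ∀ y ∈ stdSimplex ℝ S, ∑ s, y s * g s ≤ ∑ s, x s * g s) (s : S) :
    g s ≤ ∑ t, x t * g t := by
  classical
  have h1 := hmax _ (single_mem_stdSimplex ℝ s)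
  refine le_trans (le_of_eq ?_) h1
  rw [Finset.sum_eq_single s]
  · simp
  · intro t _ ht
    rw [Pi.single_eq_of_ne ht, zero_mul]
  · intro h
    exact absurd (Finset.mem_univ _) h

/-- Exact avoidance. -/
theorem eq_zero_of_linear_max {S : Type*} [Fintype S] {h x : S → ℝ} (hx : x ∈ stdSimplex ℝ S)
    (h0 : ∀ s, 0 ≤ h s) {s0 : S} (hs0 : h s0 = 0)
    (hmax : ∀ y ∈ stdSimplex ℝ S, ∑ s, y s * (-h s) ≤ ∑ s, x s * (-h s)) {s : S}
    (hs : 0 < h s) : x s = 0 := by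
  have h1 := le_of_linear_max hmax s0
  rw [hs0, neg_zero] at h1
  have h2 : ∑ t, x t * h t ≤ 0 := by
    have h3 : ∑ t, x t * (-h t) = -∑ t, x t * h t := by
      rw [← Finset.sum_neg_distrib]
      exact Finset.sum_congr rfl fun t _ => by ring
    rw [h3] at h1
    linarith
  have h3 : x s * h s ≤ 0 :=
    (Finset.single_le_sum (f := fun t => x t * h t) (fun t _ => mul_nonneg (hx.1 t) (h0 t))
      (Finset.mem_univ s)).trans h2
  have h4 := hx.1 s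
  nlinarith

/-- **(FP)** The coordinate `ν` avoids the sets `{x | 0 < g k θ x}`, the other coordinates are
best replies. The sets never cover `V`. -/
theorem fp {V : Type*} [Fintype V] [Nonempty V] {κ : Type*} [Fintype κ] {ι : Type*} [Fintype ι]
    (E : ι → Type*) [∀ i, NormedAddCommGroup (E i)] [∀ i, NormedSpace ℝ (E i)]
    [∀ i, FiniteDimensional ℝ (E i)] (K : ∀ i, Set (E i)) (hK : ∀ i, IsCompact (K i))
    (hc : ∀ i, Convex ℝ (K i)) (hne : ∀ i, (K i).Nonempty)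
    (f : ∀ i, (V → ℝ) × (∀ j, E j) → E i → ℝ)
    (hf : ∀ i, ContinuousOn (fun p : ((V → ℝ) × (∀ j, E j)) × E i => f i p.1 p.2)
      ((stdSimplex ℝ V ×ˢ Set.pi univ K) ×ˢ K i))
    (hcc : ∀ i, ∀ p ∈ stdSimplex ℝ V ×ˢ Set.pi univ K, ConcaveOn ℝ (K i) (f i p))
    (g : κ → (V → ℝ) × (∀ j, E j) → V → ℝ)
    (hg : ∀ k x, ContinuousOn (fun p => g k p x) (stdSimplex ℝ V ×ˢ Set.pi univ K))
    (hbig : ∀ p ∈ stdSimplex ℝ V ×ˢ Set.pi univ K, ∃ x, ∀ k, g k p x ≤ 0) :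
    ∃ p ∈ stdSimplex ℝ V ×ˢ Set.pi univ K, (∀ i, ∀ y ∈ K i, f i p y ≤ f i p (p.2 i)) ∧
      ∀ x, (∃ k, 0 < g k p x) → p.1 x = 0 := by
  classical
  have hgm : ∀ x, ContinuousOn (fun p => ∑ k, max 0 (g k p x))
      (stdSimplex ℝ V ×ˢ Set.pi univ K) := fun x =>
    continuousOn_finsetSum _ fun k _ => continuousOn_const.sup (hg k x)
  obtain ⟨p, hp, h0, h1⟩ := exists_equilibrium_prod (stdSimplex ℝ V)
    (isCompact_stdSimplex (𝕜 := ℝ) V) (convex_stdSimplex ℝ V)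
    ⟨_, single_mem_stdSimplex ℝ (Classical.arbitrary V)⟩
    E K hK hc hne (fun p y => ∑ x, y x * (-∑ k, max 0 (g k p x)))
    (by
      refine continuousOn_finsetSum _ fun x _ => ?_
      refine ContinuousOn.mul ?_ ?_
      · fun_prop
      · exact ((hgm x).comp continuousOn_fst fun q hq => hq.1).neg)
    (fun p _ => by
      refine ⟨convex_stdSimplex ℝ V, fun y _ z _ s t _ _ _ => le_of_eq ?_⟩
      rw [smul_eq_mul, smul_eq_mul, Finset.mul_sum, Finset.mul_sum, ← Finset.sum_add_distrib]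
      refine Finset.sum_congr rfl fun x _ => ?_
      rw [Pi.add_apply, Pi.smul_apply, Pi.smul_apply, smul_eq_mul, smul_eq_mul]
      ring)
    f hf hcc
  refine ⟨p, hp, h1, ?_⟩
  rintro x ⟨k, hk⟩
  obtain ⟨x0, hx0⟩ := hbig p hp
  refine eq_zero_of_linear_max (h := fun x => ∑ k, max 0 (g k p x)) hp.1
    (fun s => Finset.sum_nonneg fun k _ => le_max_left _ _) (s0 := x0) ?_ h0 ?_
  · exact Finset.sum_eq_zero fun k _ => max_eq_left (hx0 k)
  · refine Finset.sum_pos' (fun k _ => le_max_left _ _) ⟨k, Finset.mem_univ k, ?_⟩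
    exact lt_max_of_lt_right hk

end Pool.Agent.Lib.FPK
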