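import Pool.Agent.Lib.InvDomain.Zero

/-!
# The fixed point theorems of Brouwer and Kakutani, equilibria of continuous concave games
-/

set_option autoImplicit false

open Metric Topology Set Filter

namespace Pool.Agent.Lib.FPK

/-- A continuous map of a Euclidean space with bounded image has a fixed point. -/
theorem exists_fixed_euclid {n : ℕ} (g : EuclideanSpace ℝ (Fin n) → EuclideanSpace ℝ (Fin n))
    (hg : Continuous g) {R : ℝ} (hR : 0 < R) (hb : ∀ x, ‖g x‖ ≤ R) : ∃ x, g x = x := by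
  set s : EuclideanSpace ℝ (Fin n) → ℝ := fun x => min 1 (max 0 (2 - ‖x‖ / R)) with hs
  have hsc : Continuous s := by fun_prop
  have hs0 : ∀ x, 0 ≤ s x := fun x => le_min zero_le_one (le_max_left _ _)
  have hs1 : ∀ x, s x ≤ 1 := fun x => min_le_left _ _
  set H : EuclideanSpace ℝ (Fin n) → EuclideanSpace ℝ (Fin n) := fun x => x - s x • g x with hH
  have hHc : Continuous H := continuous_id.sub (hsc.smul hg)
  have hid : ∀ x, 2 * R ≤ ‖x‖ → H x = x := by
    intro x hx
    have h1 : s x = 0 := by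
      have h2 : 2 - ‖x‖ / R ≤ 0 := by
        rw [sub_nonpos, le_div_iff₀ hR]
        exact hx
      simp only [hs]
      rw [max_eq_left h2, min_eq_right zero_le_one]
    simp only [hH]
    rw [h1, zero_smul, sub_zero]
  obtain ⟨x, hx⟩ := InvDomain.exists_zero_of_continuous H hHc (by positivity) hid
  have h1 : x = s x • g x := sub_eq_zero.1 hx
  have h2 : ‖x‖ ≤ R := by
    have h3 : ‖x‖ = s x * ‖g x‖ := by
      conv_lhs => rw [h1]
      rw [norm_smul, Real.norm_eq_abs, abs_of_nonneg (hs0 x)]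
    rw [h3]
    calc s x * ‖g x‖ ≤ 1 * R := mul_le_mul (hs1 x) (hb x) (norm_nonneg _) zero_le_one
      _ = R := one_mul R
  have h3 : s x = 1 := by
    have h4 : (1 : ℝ) ≤ 2 - ‖x‖ / R := by
      have : ‖x‖ / R ≤ 1 := (div_le_one hR).2 h2
      linarith
    simp only [hs]
    rw [max_eq_right (by linarith), min_eq_left h4]
  refine ⟨x, ?_⟩
  rw [h3, one_smul] at h1
  exact h1.symm

section

variable {F : Type*} [NormedAddCommGroup F] [NormedSpace ℝ F] [FiniteDimensional ℝ F]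

/-- A continuous map of a finite-dimensional space with bounded image has a fixed point. -/
theorem exists_fixed (g : F → F) (hg : Continuous g) {R : ℝ} (hb : ∀ x, ‖g x‖ ≤ R) :
    ∃ x, g x = x := by
  let e : F ≃L[ℝ] EuclideanSpace ℝ (Fin (Module.finrank ℝ F)) := toEuclidean
  have hR : 0 ≤ R := (norm_nonneg _).trans (hb 0)
  obtain ⟨x, hx⟩ := exists_fixed_euclid (fun x => e (g (e.symm x)))
    (e.continuous.comp (hg.comp e.symm.continuous))
    (R := ‖(e : F →L[ℝ] EuclideanSpace ℝ (Fin (Module.finrank ℝ F)))‖ * R + 1) (by positivity)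
    (fun x => by
      have h1 := (e : F →L[ℝ] EuclideanSpace ℝ (Fin (Module.finrank ℝ F))).le_opNorm
        (g (e.symm x))
      have h2 : ‖(e : F →L[ℝ] EuclideanSpace ℝ (Fin (Module.finrank ℝ F)))‖ *
          ‖g (e.symm x)‖ ≤ ‖(e : F →L[ℝ] EuclideanSpace ℝ (Fin (Module.finrank ℝ F)))‖ * R :=
        mul_le_mul_of_nonneg_left (hb _) (norm_nonneg _)
      have h3 : ‖e (g (e.symm x))‖ ≤
        ‖(e : F →L[ℝ] EuclideanSpace ℝ (Fin (Module.finrank ℝ F)))‖ * ‖g (e.symm x)‖ := h1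
      linarith)
  refine ⟨e.symm x, ?_⟩
  have h1 := congrArg e.symm hx
  simpa using h1

/-- Kakutani's fixed point theorem. -/
theorem kakutani (K : Set F) (hK : IsCompact K) (hc : Convex ℝ K) (hne : K.Nonempty)
    (B : F → Set F) (hB : ∀ x ∈ K, (B x).Nonempty) (hBc : ∀ x ∈ K, Convex ℝ (B x))
    (hBK : ∀ x ∈ K, B x ⊆ K) (hcl : IsClosed {p : F × F | p.1 ∈ K ∧ p.2 ∈ B p.1}) :
    ∃ x ∈ K, x ∈ B x := by
  obtain ⟨R, hR, hKR⟩ := hK.isBounded.exists_pos_norm_le
  -- approximate fixed points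
  have happ : ∀ ε : ℝ, 0 < ε → ∃ x ∈ K,
      x ∈ convexHull ℝ {y | ∃ x' ∈ K, dist x' x < ε ∧ y ∈ B x'} := by
    intro ε hε
    set t : F → Set F := fun x =>
      convexHull ℝ {y | ∃ x' ∈ K, dist x' x < infDist x K + ε ∧ y ∈ B x'} with ht
    obtain ⟨g, hg⟩ := exists_continuous_forall_mem_convex_of_local_const (t := t)
      (fun x => convex_convexHull ℝ _) (fun x => by
        obtain ⟨x', hx', hd⟩ := (infDist_lt_iff hne (x := x) (r := infDist x K + ε)).1
          (by linarith)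
        obtain ⟨c, hc⟩ := hB x' hx'
        refine ⟨c, ?_⟩
        have h1 : ∀ᶠ y in 𝓝 x, dist x' y < infDist y K + ε := by
          apply ContinuousAt.eventually_lt
          · exact (continuous_const.dist continuous_id).continuousAt
          · exact ((continuous_infDist_pt K).add continuous_const).continuousAt
          · rw [dist_comm]
            exact hd
        filter_upwards [h1] with y hy
        exact subset_convexHull ℝ _ ⟨x', hx', hy, hc⟩)
    have hgK : ∀ x, g x ∈ K := by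
      intro x
      refine convexHull_min ?_ hc (hg x)
      rintro y ⟨x', hx', -, hy⟩
      exact hBK x' hx' hy
    obtain ⟨x, hx⟩ := exists_fixed g g.continuous (fun x => hKR _ (hgK x))
    have hxK : x ∈ K := hx ▸ hgK x
    refine ⟨x, hxK, ?_⟩
    have h1 := hg x
    rw [hx] at h1
    simp only [ht] at h1
    rwa [infDist_zero_of_mem hxK, zero_add] at h1
  choose! x hxK hx using happ
  obtain ⟨a, haK, φ, hφ, hlim⟩ := hK.tendsto_subseq
    (x := fun k : ℕ => x (1 / ((k : ℝ) + 1))) (fun k => hxK _ (by positivity))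
  have hBcl : IsClosed (B a) := by
    have h1 : B a = (fun y => (a, y)) ⁻¹' {p : F × F | p.1 ∈ K ∧ p.2 ∈ B p.1} := by
      ext y
      simp [haK]
    rw [h1]
    exact hcl.preimage (by fun_prop)
  -- upper hemicontinuity
  have hup : ∀ δ : ℝ, 0 < δ → ∃ η : ℝ, 0 < η ∧ ∀ x' ∈ K, dist x' a < η →
      B x' ⊆ thickening δ (B a) := by
    intro δ hδ
    by_contra hcon
    push Not at hcon
    have h1 : ∀ k : ℕ, ∃ x' y, x' ∈ K ∧ dist x' a < 1 / ((k : ℝ) + 1) ∧ y ∈ B x' ∧
        y ∉ thickening δ (B a) := by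
      intro k
      obtain ⟨x', hx', hd, hy⟩ := hcon (1 / ((k : ℝ) + 1)) (by positivity)
      obtain ⟨y, hy1, hy2⟩ := Set.not_subset.1 hy
      exact ⟨x', y, hx', hd, hy1, hy2⟩
    choose x' y hx' hd hy1 hy2 using h1
    obtain ⟨b, hbK, ψ, hψ, hlim'⟩ := hK.tendsto_subseq (x := y)
      (fun k => hBK _ (hx' k) (hy1 k))
    have hx'lim : Tendsto (fun k => x' (ψ k)) atTop (𝓝 a) := by
      rw [tendsto_iff_dist_tendsto_zero]
      refine squeeze_zero (fun _ => dist_nonneg) (fun k => (hd (ψ k)).le) ?_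
      exact (tendsto_one_div_add_atTop_nhds_zero_nat (𝕜 := ℝ)).comp hψ.tendsto_atTop
    have hmem : (a, b) ∈ {p : F × F | p.1 ∈ K ∧ p.2 ∈ B p.1} := by
      refine hcl.mem_of_tendsto (hx'lim.prodMk_nhds hlim') (Eventually.of_forall fun k => ?_)
      exact ⟨hx' _, hy1 _⟩
    have h2 : b ∈ (thickening δ (B a))ᶜ :=
      isOpen_thickening.isClosed_compl.mem_of_tendsto hlim' (Eventually.of_forall fun k => hy2 _)
    exact h2 (self_subset_thickening hδ _ hmem.2)
  refine ⟨a, haK, ?_⟩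
  rw [hBcl.mem_iff_infDist_zero (hB a haK)]
  refine le_antisymm ?_ infDist_nonneg
  refine le_of_forall_pos_le_add fun δ hδ => ?_
  rw [zero_add]
  obtain ⟨η, hη, hsub⟩ := hup δ hδ
  have h1 : ∀ᶠ k in atTop, dist (x (1 / (((φ k : ℕ) : ℝ) + 1))) a < η / 2 :=
    (tendsto_iff_dist_tendsto_zero.1 hlim).eventually_lt_const (by linarith)
  have h2 : ∀ᶠ k in atTop, 1 / (((φ k : ℕ) : ℝ) + 1) < η / 2 :=
    ((tendsto_one_div_add_atTop_nhds_zero_nat (𝕜 := ℝ)).comp hφ.tendsto_atTop).eventually_lt_const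
      (by linarith)
  have h3 : ∀ᶠ k in atTop, infDist (x (1 / (((φ k : ℕ) : ℝ) + 1))) (B a) ≤ δ := by
    filter_upwards [h1, h2] with k hk1 hk2
    have h4 := hx (1 / (((φ k : ℕ) : ℝ) + 1)) (by positivity)
    have h5 : x (1 / (((φ k : ℕ) : ℝ) + 1)) ∈ thickening δ (B a) := by
      refine convexHull_min ?_ ((hBc a haK).thickening δ) h4
      rintro y ⟨x', hx'K, hd, hy⟩
      refine hsub x' hx'K ?_ hy
      have := dist_triangle x' (x (1 / (((φ k : ℕ) : ℝ) + 1))) a
      linarith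
    exact ((mem_thickening_iff_infDist_lt (hB a haK)).1 h5).le
  exact le_of_tendsto ((continuous_infDist_pt (B a)).continuousAt.tendsto.comp hlim) h3

end

/-- Kakutani's theorem for a product. -/
theorem kakutani_pi {ι : Type*} [Fintype ι] (E : ι → Type*) [∀ i, NormedAddCommGroup (E i)]
    [∀ i, NormedSpace ℝ (E i)] [∀ i, FiniteDimensional ℝ (E i)] (K : ∀ i, Set (E i))
    (hK : ∀ i, IsCompact (K i)) (hc : ∀ i, Convex ℝ (K i)) (hne : ∀ i, (K i).Nonempty)
    (B : ∀ i, (∀ j, E j) → Set (E i))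
    (hB : ∀ i, ∀ x ∈ Set.pi univ K, (B i x).Nonempty)
    (hBc : ∀ i, ∀ x ∈ Set.pi univ K, Convex ℝ (B i x))
    (hBK : ∀ i, ∀ x ∈ Set.pi univ K, B i x ⊆ K i)
    (hcl : ∀ i, IsClosed {p : (∀ j, E j) × E i | p.1 ∈ Set.pi univ K ∧ p.2 ∈ B i p.1}) :
    ∃ x ∈ Set.pi univ K, ∀ i, x i ∈ B i x := by
  obtain ⟨x, hx, hxB⟩ := kakutani (Set.pi univ K) (isCompact_univ_pi hK)
    (convex_pi fun i _ => hc i) (univ_pi_nonempty_iff.2 hne)
    (fun x => Set.pi univ fun i => B i x)
    (fun x hx => univ_pi_nonempty_iff.2 fun i => hB i x hx)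
    (fun x hx => convex_pi fun i _ => hBc i x hx)
    (fun x hx => Set.pi_mono fun i _ => hBK i x hx)
    (by
      have h1 : {p : (∀ j, E j) × (∀ j, E j) | p.1 ∈ Set.pi univ K ∧
          p.2 ∈ Set.pi univ fun i => B i p.1} =
          {p : (∀ j, E j) × (∀ j, E j) | p.1 ∈ Set.pi univ K} ∩ ⋂ i,
            (fun p : (∀ j, E j) × (∀ j, E j) => (p.1, p.2 i)) ⁻¹'
              {p : (∀ j, E j) × E i | p.1 ∈ Set.pi univ K ∧ p.2 ∈ B i p.1} := by
        ext p
        simp only [mem_ofPred_eq, mem_inter_iff, mem_iInter, mem_preimage, Set.mem_univ_pi]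
        constructor
        · rintro ⟨h2, h3⟩
          exact ⟨h2, fun i => ⟨h2, h3 i⟩⟩
        · rintro ⟨h2, h3⟩
          exact ⟨h2, fun i => (h3 i).2⟩
      rw [h1]
      refine IsClosed.inter ?_ (isClosed_iInter fun i => (hcl i).preimage (by fun_prop))
      exact (isCompact_univ_pi hK).isClosed.preimage continuous_fst)
  exact ⟨x, hx, fun i => hxB i (mem_univ i)⟩

/-- Equilibria of continuous concave games (the functions may depend on all coordinates). -/
theorem exists_equilibrium {ι : Type*} [Fintype ι] (E : ι → Type*)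
    [∀ i, NormedAddCommGroup (E i)] [∀ i, NormedSpace ℝ (E i)] [∀ i, FiniteDimensional ℝ (E i)]
    (K : ∀ i, Set (E i)) (hK : ∀ i, IsCompact (K i)) (hc : ∀ i, Convex ℝ (K i))
    (hne : ∀ i, (K i).Nonempty) (f : ∀ i, (∀ j, E j) → E i → ℝ)
    (hf : ∀ i, ContinuousOn (fun p : (∀ j, E j) × E i => f i p.1 p.2)
      (Set.pi univ K ×ˢ K i))
    (hcc : ∀ i, ∀ x ∈ Set.pi univ K, ConcaveOn ℝ (K i) (f i x)) :
    ∃ x ∈ Set.pi univ K, ∀ i, ∀ y ∈ K i, f i x y ≤ f i x (x i) := by
  obtain ⟨x, hx, hxB⟩ := kakutani_pi E K hK hc hne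
    (fun i x => {z | z ∈ K i ∧ ∀ y ∈ K i, f i x y ≤ f i x z})
    (fun i x hx => by
      have h1 : ContinuousOn (f i x) (K i) := by
        have h2 : ContinuousOn (fun z : E i => (x, z)) (K i) := by fun_prop
        exact (hf i).comp h2 fun z hz => ⟨hx, hz⟩
      obtain ⟨z, hz, hz2⟩ := (hK i).exists_isMaxOn (hne i) h1
      exact ⟨z, hz, fun y hy => hz2 hy⟩)
    (fun i x hx => by
      rintro z ⟨hz, hz2⟩ z' ⟨hz', hz2'⟩ s t hs ht hst
      refine ⟨hc i hz hz' hs ht hst, fun y hy => ?_⟩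
      have h1 := (hcc i x hx).2 hz hz' hs ht hst
      refine le_trans ?_ h1
      have h2 := mul_le_mul_of_nonneg_left (hz2 y hy) hs
      have h3 := mul_le_mul_of_nonneg_left (hz2' y hy) ht
      have h4 : f i x y = s * f i x y + t * f i x y := by
        rw [← add_mul, hst, one_mul]
      rw [h4, smul_eq_mul, smul_eq_mul]
      exact add_le_add h2 h3)
    (fun i x _ z hz => hz.1)
    (fun i => by
      have hKc : IsClosed (Set.pi univ K ×ˢ K i) :=
        ((isCompact_univ_pi hK).prod (hK i)).isClosed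
      have h1 : {p : (∀ j, E j) × E i | p.1 ∈ Set.pi univ K ∧
          p.2 ∈ {z | z ∈ K i ∧ ∀ y ∈ K i, f i p.1 y ≤ f i p.1 z}} =
          (Set.pi univ K ×ˢ K i) ∩ ⋂ y ∈ K i,
            {p ∈ Set.pi univ K ×ˢ K i | f i p.1 y ≤ f i p.1 p.2} := by
        ext p
        simp only [mem_ofPred_eq, mem_inter_iff, mem_iInter, Set.mem_prod]
        constructor
        · rintro ⟨h2, h3, h4⟩
          exact ⟨⟨h2, h3⟩, fun y hy => ⟨⟨h2, h3⟩, h4 y hy⟩⟩
        · rintro ⟨⟨h2, h3⟩, h4⟩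
          exact ⟨h2, h3, fun y hy => (h4 y hy).2⟩
      rw [h1]
      refine hKc.inter (isClosed_biInter fun y hy => ?_)
      refine hKc.isClosed_le ?_ (hf i)
      have h2 : ContinuousOn (fun p : (∀ j, E j) × E i => (p.1, y))
          (Set.pi univ K ×ˢ K i) := by fun_prop
      exact (hf i).comp h2 fun p hp => ⟨hp.1, hy⟩)
  exact ⟨x, hx, fun i => (hxB i).2⟩

end Pool.Agent.Lib.FPK
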